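import Mathlib

set_option autoImplicit false
open Set Filter Topology Metric Complex MeasureTheory ComplexConjugate
open scoped ContDiff NNReal

namespace Pool.Agent.H.MP_ae2532_an

/-- The Cauchy-Riemann operator in the complex direction `v`. -/
noncomputable def db (v : ℂ × ℂ) (φ : ℂ × ℂ → ℂ) (p : ℂ × ℂ) : ℂ :=
  (fderiv ℝ φ p v + I * fderiv ℝ φ p (I • v)) / 2

def Test (Ω : Set (ℂ × ℂ)) (φ : ℂ × ℂ → ℂ) : Prop :=
  ContDiff ℝ ∞ φ ∧ HasCompactSupport φ ∧ tsupport φ ⊆ Ω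

/-- Uniform estimates on `Ω` with constant `C`. -/
def Est (Ω : Set (ℂ × ℂ)) (C : ℝ≥0) : Prop :=
  ∀ f₁ f₂ : ℂ × ℂ → ℂ, MemLp f₁ ⊤ (volume.restrict Ω) → MemLp f₂ ⊤ (volume.restrict Ω) →
    (∀ φ, Test Ω φ → ∫ p in Ω, f₁ p * db (0, 1) φ p = ∫ p in Ω, f₂ p * db (1, 0) φ p) →
    ∃ u : ℂ × ℂ → ℂ, MemLp u ⊤ (volume.restrict Ω) ∧
      (∀ φ, Test Ω φ → ∫ p in Ω, u p * db (1, 0) φ p = -∫ p in Ω, f₁ p * φ p ∧
        ∫ p in Ω, u p * db (0, 1) φ p = -∫ p in Ω, f₂ p * φ p) ∧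
      eLpNorm u ⊤ (volume.restrict Ω) ≤
        C * eLpNorm (fun p => √(‖f₁ p‖ ^ 2 + ‖f₂ p‖ ^ 2)) ⊤ (volume.restrict Ω)

noncomputable def d1 (φ : ℂ → ℂ) (z : ℂ) : ℂ := (fderiv ℝ φ z 1 + I * fderiv ℝ φ z I) / 2

lemma cr (L : ℂ →L[ℝ] ℂ) (c : ℂ) : L c + I * L (c * I) = conj c * (L 1 + I * L I) := by
  have e (z : ℂ) : L z = z.re * L 1 + z.im * L I := by
    conv_lhs => rw [show z = z.re • (1 : ℂ) + z.im • I by simp]
    rw [map_add, map_smul, map_smul]; simp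
  rw [e c, e (c * I), show conj c = c.re - c.im * I from Complex.ext (by simp) (by simp)]
  simp only [mul_re, I_re, I_im, mul_im, mul_zero, mul_one, zero_sub, add_zero, ofReal_neg]
  linear_combination (c.im * L I) * I_sq

lemma loc {E V : Type*} [NormedAddCommGroup E] [NormedSpace ℝ E] [NormedAddCommGroup V] [NormedSpace ℝ V]
    {n : WithTop ℕ∞} {F : E → V} {S : Set E} (hS : IsClosed S) (h0 : ∀ p ∉ S, F p = 0)
    (h : ∀ p ∈ S, ContDiffAt ℝ n F p) : ContDiff ℝ n F := contDiff_iff_contDiffAt.2 fun p => by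
  by_cases k : p ∈ S
  · exact h p k
  · exact contDiffAt_const.congr_of_eventuallyEq (mem_of_superset (hS.isOpen_compl.mem_nhds k) h0)

lemma dbc {g : ℂ × ℂ → ℂ} (hg : ContDiff ℝ 1 g) (v : ℂ × ℂ) : Continuous (db v g) := by
  have := hg.continuous_fderiv one_ne_zero
  unfold db; fun_prop

lemma db0 {g : ℂ × ℂ → ℂ} (v : ℂ × ℂ) {p : ℂ × ℂ} (h : p ∉ tsupport g) : db v g p = 0 := by
  simp [db, fderiv_of_notMem_tsupport ℝ h]

lemma dbi {g : ℂ × ℂ → ℂ} (hg : ContDiff ℝ 1 g) (hc : HasCompactSupport g) (v : ℂ × ℂ) : Integrable (db v g) :=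
  (dbc hg v).integrable_of_hasCompactSupport (.intro hc fun _ => db0 v)

lemma ibp {g : ℂ × ℂ → ℂ} (hg : ContDiff ℝ 1 g) (hc : HasCompactSupport g) {Ω : Set (ℂ × ℂ)}
    (s : tsupport g ⊆ Ω) (v : ℂ × ℂ) : ∫ p in Ω, db v g p = 0 := by
  have c := hg.continuous_fderiv one_ne_zero
  have i (v : ℂ × ℂ) : Integrable fun p => fderiv ℝ g p v :=
    Continuous.integrable_of_hasCompactSupport (by fun_prop) (hc.fderiv_apply ℝ v)
  have : (volume : Measure (ℂ × ℂ)).IsAddHaarMeasure := Measure.prod.instIsAddHaarMeasure _ _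
  have e (v : ℂ × ℂ) : ∫ p, fderiv ℝ g p v = 0 := by
    simpa using integral_mul_fderiv_eq_neg_fderiv_mul_of_integrable (μ := volume) (f := fun _ => (1 : ℂ)) (g := g)
      (v := v) (by simp) (by simpa using i v) (by simpa using hg.continuous.integrable_of_hasCompactSupport hc)
      (by simp) fun p _ => hg.differentiable one_ne_zero p
  rw [setIntegral_eq_integral_of_forall_compl_eq_zero fun p hp => db0 v fun k => hp (s k)]
  simp only [db]
  rw [integral_div, integral_add (i v) ((i _).const_mul _), integral_const_mul, e, e]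
  simp

lemma dbmul {f g : ℂ × ℂ → ℂ} {p : ℂ × ℂ} (hf : DifferentiableAt ℝ f p) (hg : DifferentiableAt ℝ g p) (v : ℂ × ℂ) :
    db v (fun p => f p * g p) p = db v f p * g p + f p * db v g p := by
  simp only [db, fderiv_fun_mul hf hg]
  simp; ring

lemma dbfst {b : ℂ → ℂ} {p : ℂ × ℂ} (hb : DifferentiableAt ℝ b p.1) :
    db (1, 0) (fun p => b p.1) p = d1 b p.1 ∧ db (0, 1) (fun p => b p.1) p = 0 := by
  have := (hb.hasFDerivAt.comp p hasFDerivAt_fst).fderiv
  simp only [Function.comp_def] at this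
  simp [db, d1, this]

lemma dbsh {h ρ : ℂ → ℂ} {p : ℂ × ℂ} (hh : DifferentiableAt ℂ h p.1) (hρ : DifferentiableAt ℝ ρ (p.2 - h p.1)) :
    db (1, 0) (fun p => ρ (p.2 - h p.1)) p = -(conj (deriv h p.1) * d1 ρ (p.2 - h p.1)) ∧
      db (0, 1) (fun p => ρ (p.2 - h p.1)) p = d1 ρ (p.2 - h p.1) := by
  have := (hρ.hasFDerivAt.comp p (hasFDerivAt_snd.sub
    ((hh.hasDerivAt.hasFDerivAt.restrictScalars ℝ).comp p hasFDerivAt_fst))).fderiv
  simp only [Function.comp_def, Pi.sub_def] at this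
  have c := cr (fderiv ℝ ρ (p.2 - h p.1)) (deriv h p.1)
  simp [db, d1, this, mul_comm I]
  simp only [mul_comm _ I] at c ⊢
  linear_combination (-1 / 2) * c

lemma d1conj (z : ℂ) : d1 conj z = 1 := by
  have := (conjCLE.hasFDerivAt (x := z)).fderiv
  simp only [show (conjCLE : ℂ → ℂ) = conj from rfl] at this
  simp [d1, this]

lemma d1c {b : ℂ → ℂ} (hb : ContDiff ℝ ∞ b) : ContDiff ℝ ∞ (d1 b) := by
  have := (contDiff_infty_iff_fderiv.1 hb).2
  unfold d1; fun_prop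

lemma closed {Ω : Set (ℂ × ℂ)} (mo : MeasurableSet Ω) {h b : ℂ → ℂ} (hh : ∀ p ∈ Ω, AnalyticAt ℂ h p.1)
    (hb : ContDiff ℝ ∞ b) (φ : ℂ × ℂ → ℂ) (hφ : Test Ω φ) :
    ∫ p in Ω, conj (p.2 - h p.1) * d1 b p.1 * db (0, 1) φ p = ∫ p in Ω, b p.1 * db (1, 0) φ p := by
  obtain ⟨c, k, s⟩ := hφ
  have c1 : ContDiff ℝ 1 φ := c.of_le (by simp)
  have b1 : ContDiff ℝ 1 b := hb.of_le (by simp)
  have d1b : ContDiff ℝ 1 (d1 b) := (d1c hb).of_le (by simp)
  have f1 (p : ℂ × ℂ) (hp : p ∈ Ω) : ContDiffAt ℝ 1 (fun p : ℂ × ℂ => conj (p.2 - h p.1)) p :=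
    conjCLE.contDiff.contDiffAt.comp p (contDiffAt_snd.sub
      (((hh p hp).contDiffAt.restrict_scalars ℝ).comp p contDiffAt_fst))
  have g1 : ContDiff ℝ 1 fun p : ℂ × ℂ => conj (p.2 - h p.1) * d1 b p.1 * φ p :=
    loc (isClosed_tsupport φ) (fun p hp => by simp [image_eq_zero_of_notMem_tsupport hp])
      fun p hp => ((f1 p (s hp)).mul (by fun_prop)).mul c1.contDiffAt
  have g2 : ContDiff ℝ 1 fun p : ℂ × ℂ => b p.1 * φ p := by fun_prop
  have i : IntegrableOn (fun p : ℂ × ℂ => d1 b p.1 * φ p) Ω :=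
    (Continuous.integrable_of_hasCompactSupport (by fun_prop) k.mul_left).integrableOn
  have e1 := ibp g1 k.mul_left (tsupport_mul_subset_right.trans s) (0, 1)
  have e2 := ibp g2 k.mul_left (tsupport_mul_subset_right.trans s) (1, 0)
  rw [← sub_left_inj (a := ∫ p in Ω, d1 b p.1 * φ p), ← integral_sub (dbi g1 k.mul_left _).integrableOn i] at e1
  rw [← sub_left_inj (a := ∫ p in Ω, d1 b p.1 * φ p), ← integral_sub (dbi g2 k.mul_left _).integrableOn i] at e2
  refine ((setIntegral_congr_fun mo fun p hp => ?_).trans (e1.trans e2.symm)).trans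
    (setIntegral_congr_fun mo fun p hp => ?_)
  · have a := (f1 p hp).differentiableAt one_ne_zero
    have a2 : DifferentiableAt ℝ (fun p : ℂ × ℂ => d1 b p.1) p :=
      (d1b.differentiable one_ne_zero _).comp p differentiableAt_fst
    rw [dbmul (a.fun_mul a2) (c1.differentiable one_ne_zero p), dbmul a a2,
      (dbfst (d1b.differentiable one_ne_zero _)).2,
      (dbsh (ρ := conj) (hh p hp).differentiableAt conjCLE.differentiableAt).2, d1conj]
    ring
  · rw [dbmul (f := fun p => b p.1) ((b1.differentiable one_ne_zero _).comp p differentiableAt_fst) (c1.differentiable one_ne_zero p),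
      (dbfst (b1.differentiable one_ne_zero _)).1]
    ring

end Pool.Agent.H.MP_ae2532_an
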