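import Pool.Agent.H.MP_ae2532_an.A

set_option autoImplicit false
open Set Filter Topology Metric Complex MeasureTheory ComplexConjugate
open scoped ContDiff NNReal

namespace Pool.Agent.H.MP_ae2532_an

lemma tf {Ω : Set (ℂ × ℂ)} {h : ℂ → ℂ} {S : Set ℂ} (cS : IsCompact S) (hh : AnalyticOnNhd ℂ h S) {ε : ℝ}
    (tb : ∀ x ∈ S, ∀ w : ℂ, ‖w‖ ≤ ε → (x, h x + w) ∈ Ω) {r : ℂ → ℝ} (cr : ContDiff ℝ ∞ r)
    (r0 : ∀ w, ε < ‖w‖ → r w = 0) (r1 : ∫ w, r w = 1) {V : Type} [NormedAddCommGroup V] [NormedSpace ℝ V]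
    [CompleteSpace V] {n : ℕ∞} {k : ℂ → V} (ck : ∀ x ∈ S, ContDiffAt ℝ n k x) (k0 : ∀ x ∉ S, k x = 0) :
    ContDiff ℝ n (fun p : ℂ × ℂ => r (p.2 - h p.1) • k p.1) ∧
      HasCompactSupport (fun p : ℂ × ℂ => r (p.2 - h p.1) • k p.1) ∧
      tsupport (fun p : ℂ × ℂ => r (p.2 - h p.1) • k p.1) ⊆ Ω ∧
      IntegrableOn (fun p : ℂ × ℂ => r (p.2 - h p.1) • k p.1) Ω ∧
      ∫ p in Ω, r (p.2 - h p.1) • k p.1 = ∫ x, k x := by
  set K := (fun q : ℂ × ℂ => (q.1, h q.1 + q.2)) '' (S ×ˢ closedBall 0 ε)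
  have cK : IsCompact K := (cS.prod (isCompact_closedBall 0 ε)).image_of_continuousOn
    (continuousOn_fst.prodMk ((hh.continuousOn.comp continuousOn_fst fun q hq => hq.1).add continuousOn_snd))
  have z (p : ℂ × ℂ) (hp : p ∉ K) : r (p.2 - h p.1) • k p.1 = 0 := by
    by_cases a : p.1 ∈ S
    · rw [r0 _ (lt_of_not_ge fun c => hp ⟨(p.1, p.2 - h p.1), ⟨a, mem_closedBall_zero_iff.2 c⟩, by simp⟩), zero_smul]
    · rw [k0 _ a, smul_zero]
  have c : ContDiff ℝ n (fun p : ℂ × ℂ => r (p.2 - h p.1) • k p.1) := loc cK.isClosed z fun p hp => by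
    have hq : p.1 ∈ S := by obtain ⟨q, hq, rfl⟩ := hp; exact hq.1
    exact ((cr.of_le (by simp)).contDiffAt.comp p (contDiffAt_snd.sub
      (ContDiffAt.comp (g := h) p ((hh _ hq).contDiffAt.restrict_scalars ℝ) contDiffAt_fst))).smul
      (ContDiffAt.comp (g := k) p (ck _ hq) contDiffAt_fst)
  have s : K ⊆ Ω := by
    rintro _ ⟨q, hq, rfl⟩
    exact tb _ hq.1 _ (mem_closedBall_zero_iff.1 hq.2)
  have i := c.continuous.integrable_of_hasCompactSupport (μ := volume) (.intro cK z)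
  refine ⟨c, .intro cK z, (closure_minimal (Function.support_subset_iff'.2 z) cK.isClosed).trans s,
    i.integrableOn, ?_⟩
  rw [setIntegral_eq_integral_of_forall_compl_eq_zero fun p hp => z p fun a => hp (s a), Measure.volume_eq_prod,
    integral_prod _ i]
  simp only [integral_smul_const, integral_sub_right_eq_self r, r1, one_smul]

lemma stepA {Ω : Set (ℂ × ℂ)} (mo : MeasurableSet Ω) {C : ℝ≥0} (E : Est Ω C) {h b g : ℂ → ℂ}
    (hh : ∀ p ∈ Ω, AnalyticAt ℂ h p.1) (cb : ContDiff ℝ ∞ b) (cg : ContDiff ℝ ∞ g) (kg : HasCompactSupport g)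
    {ε : ℝ} (e0 : 0 < ε) (tb : ∀ x ∈ tsupport g, ∀ w : ℂ, ‖w‖ ≤ ε → (x, h x + w) ∈ Ω)
    (b1 : ∀ x, ‖b x‖ ≤ 1) (b2 : ∀ p ∈ Ω, ‖p.2 - h p.1‖ * ‖d1 b p.1‖ ≤ 1) :
    ‖∫ x, conj (deriv h x) * b x * g x‖ ≤ 2 * C * (∫ x, ‖d1 g x‖) + ∫ x, ‖g x‖ := by
  have ch : ContinuousOn (fun p : ℂ × ℂ => h p.1) Ω := fun p hp =>
    ((hh p hp).continuousAt.comp continuousAt_fst).continuousWithinAt
  have f1 (p : ℂ × ℂ) (hp : p ∈ Ω) : ‖conj (p.2 - h p.1) * d1 b p.1‖ ≤ 1 := by
    rw [norm_mul, norm_conj]; exact b2 p hp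
  have m1 : MemLp (fun p : ℂ × ℂ => conj (p.2 - h p.1) * d1 b p.1) ⊤ (volume.restrict Ω) :=
    memLp_top_of_bound (ContinuousOn.aestronglyMeasurable ((continuous_conj.comp_continuousOn
      (continuousOn_snd.sub ch)).mul ((d1c cb).continuous.comp continuous_fst).continuousOn) mo) 1
      (ae_restrict_of_forall_mem mo f1)
  obtain ⟨u, mu, hu, bu⟩ := E _ (fun p => b p.1) m1 (memLp_top_of_bound (cb.continuous.comp continuous_fst).aestronglyMeasurable 1
    (.of_forall fun p => b1 _)) (closed mo hh cb)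
  have ub : ∀ᵐ p ∂volume.restrict Ω, ‖u p‖ ≤ 2 * C := by
    have : eLpNorm u ⊤ (volume.restrict Ω) ≤ ((2 * C : ℝ≥0) : ENNReal) := by
      refine bu.trans ?_
      rw [mul_comm 2, ENNReal.coe_mul, eLpNorm_exponent_top]
      gcongr
      refine eLpNormEssSup_le_of_ae_nnnorm_bound (ae_restrict_of_forall_mem mo fun p hp => ?_)
      rw [← NNReal.coe_le_coe, coe_nnnorm, Real.norm_of_nonneg (Real.sqrt_nonneg _), Real.sqrt_le_iff]
      have := pow_le_one₀ (norm_nonneg _) (f1 p hp) (n := 2)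
      have := pow_le_one₀ (norm_nonneg _) (b1 p.1) (n := 2)
      simp only [NNReal.coe_ofNat]
      constructor <;> linarith
    filter_upwards [ae_le_eLpNormEssSup (f := u)] with p hp
    exact_mod_cast enorm_le_coe.1 (hp.trans this)
  let ρ : ContDiffBump (0 : ℂ) := ⟨ε / 2, ε, half_pos e0, half_lt_self e0⟩
  have cr : ContDiff ℝ ∞ (ρ.normed volume) := ρ.contDiff_normed
  have r0 (w : ℂ) (hw : ε < ‖w‖) : ρ.normed volume w = 0 := Function.notMem_support.1 (by
    rw [ρ.support_normed_eq]; simpa using hw.le)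
  have r1 := ρ.integral_normed (μ := volume)
  have rp := ρ.nonneg_normed (μ := volume)
  generalize ρ.normed volume = r at *
  have hS : AnalyticOnNhd ℂ h (tsupport g) := fun x hx => hh _ (tb x hx 0 (by simpa using e0.le))
  have z (x : ℂ) (hx : x ∉ tsupport g) : g x = 0 := image_eq_zero_of_notMem_tsupport hx
  have z' (x : ℂ) (hx : x ∉ tsupport g) : d1 g x = 0 := by simp [d1, fderiv_of_notMem_tsupport ℝ hx]
  have ch' (x : ℂ) (hx : AnalyticAt ℂ h x) : ContDiffAt ℝ ∞ (fun x => conj (deriv h x)) x :=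
    conjCLE.contDiff.contDiffAt.comp x (hx.deriv.contDiffAt.restrict_scalars ℝ)
  obtain ⟨a1, a2, a3, a4, -⟩ := tf kg hS tb cr r0 r1 (n := ⊤) (fun _ _ => cg.contDiffAt) z
  obtain ⟨c1, c2, c3, -, -⟩ := tf kg hS tb cr r0 r1 (n := ⊤) (k := fun x => conj (deriv h x) * g x)
    (fun x hx => (ch' x (hS x hx)).mul cg.contDiffAt) fun x hx => by simp [z x hx]
  obtain ⟨-, -, -, -, d5⟩ := tf kg hS tb cr r0 r1 (n := ⊤) (k := fun x => conj (deriv h x) * b x * g x)
    (fun x hx => ((ch' x (hS x hx)).mul cb.contDiffAt).mul cg.contDiffAt) fun x hx => by simp [z x hx]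
  obtain ⟨-, -, -, p4, p5⟩ := tf kg hS tb cr r0 r1 (n := 0) (k := fun x => ‖g x‖)
    (fun x hx => (contDiff_zero.2 cg.continuous.norm).contDiffAt) fun x hx => by simp [z x hx]
  obtain ⟨-, -, -, q4, q5⟩ := tf kg hS tb cr r0 r1 (n := 0) (k := fun x => ‖d1 g x‖)
    (fun x hx => (contDiff_zero.2 (d1c cg).continuous.norm).contDiffAt) fun x hx => by simp [z' x hx]
  have e1 := (hu _ ⟨a1, a2, a3⟩).1
  have e2 := (hu _ ⟨c1, c2, c3⟩).2
  have i (φ : ℂ × ℂ → ℂ) (c : ContDiff ℝ ∞ φ) (k : HasCompactSupport φ) (v : ℂ × ℂ) :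
      IntegrableOn (fun p => u p * db v φ p) Ω :=
    (dbi (c.of_le (by simp)) k v).integrableOn.bdd_mul mu.1 ub
  have e := congrArg₂ (· + ·) e1 e2
  rw [← integral_add (i _ a1 a2 _) (i _ c1 c2 _), setIntegral_congr_fun mo
    (g := fun p => u p * (r (p.2 - h p.1) • d1 g p.1)) fun p hp => ?_,
    setIntegral_congr_fun mo (f := fun p => b p.1 * r (p.2 - h p.1) • (conj (deriv h p.1) * g p.1))
    (g := fun p => r (p.2 - h p.1) • (conj (deriv h p.1) * b p.1 * g p.1)) fun p _ => by simp; ring, d5] at e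
  · have t1 := norm_integral_le_of_norm_le (f := fun p => u p * (r (p.2 - h p.1) • d1 g p.1))
      (q4.const_mul (2 * C)) (ub.mono fun p hp => by
        rw [norm_mul, norm_smul, Real.norm_of_nonneg (rp _), smul_eq_mul]; gcongr; exact mul_nonneg (rp _) (norm_nonneg _))
    have t2 := norm_integral_le_of_norm_le (f := fun p => conj (p.2 - h p.1) * d1 b p.1 * (r (p.2 - h p.1) • g p.1))
      p4 (ae_restrict_of_forall_mem mo fun p hp => by
        rw [norm_mul, norm_smul, Real.norm_of_nonneg (rp _), smul_eq_mul]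
        exact mul_le_of_le_one_left (mul_nonneg (rp _) (norm_nonneg _)) (f1 p hp))
    rw [integral_const_mul, q5, e] at t1
    rw [p5] at t2
    have := norm_add_le (-(∫ p in Ω, conj (p.2 - h p.1) * d1 b p.1 * (r (p.2 - h p.1) • g p.1)) +
      -∫ x, conj (deriv h x) * b x * g x) (∫ p in Ω, conj (p.2 - h p.1) * d1 b p.1 * (r (p.2 - h p.1) • g p.1))
    rw [neg_add_cancel_comm, norm_neg] at this
    linarith
  · have dr : DifferentiableAt ℝ (fun w => (r w : ℂ)) (p.2 - h p.1) :=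
      ofRealCLM.differentiableAt.comp _ (cr.differentiable (by simp) _)
    have dh := (hh p hp).differentiableAt
    have d0 : DifferentiableAt ℝ (fun p : ℂ × ℂ => (r (p.2 - h p.1) : ℂ)) p :=
      dr.comp p (differentiableAt_snd.sub ((dh.restrictScalars ℝ).comp p differentiableAt_fst))
    have dg := cg.differentiable (by simp) p.1
    have dk := ((ch' _ (hh p hp)).differentiableAt (by simp)).fun_mul dg
    simp only [real_smul]
    rw [dbmul (g := fun p => g p.1) d0 (dg.comp p differentiableAt_fst),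
      dbmul (g := fun p => conj (deriv h p.1) * g p.1) d0 (dk.comp p differentiableAt_fst), (dbsh dh dr).1,
      (dbsh dh dr).2, (dbfst dg).1, (dbfst dk).2]
    ring

end Pool.Agent.H.MP_ae2532_an
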