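import Pool.Agent.H.MP_ae2532_an.B

set_option autoImplicit false
open Set Filter Topology Metric Complex MeasureTheory ComplexConjugate
open scoped ContDiff NNReal Real

namespace Pool.Agent.H.MP_ae2532_an

lemma hm (c : ℂ) {x : ℂ} (hx : x ≠ 0) : HasDerivAt (fun x : ℂ => x⁻¹ - c) (-(x ^ 2)⁻¹) x :=
  (hasDerivAt_inv hx).sub_const c

lemma cov (c : ℂ) {V : Type} [NormedAddCommGroup V] [NormedSpace ℝ V] (Φ : ℂ → V) {Ψ : ℂ → V}
    (e : ∀ x ≠ 0, Ψ x = ‖(x ^ 2)⁻¹‖ ^ 2 • Φ (x⁻¹ - c)) : ∫ x, Ψ x = ∫ s, Φ s := by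
  have := integral_image_eq_integral_abs_det_fderiv_smul volume (measurableSet_singleton (0 : ℂ)).compl
    (fun x hx => ((hm c hx).hasFDerivAt.restrictScalars ℝ).hasFDerivWithinAt)
    (fun x _ y _ h => inv_injective (sub_left_injective h)) Φ
  rw [show (fun x : ℂ => x⁻¹ - c) '' {0}ᶜ = {-c}ᶜ from ?_, restrict_compl_singleton] at this
  · rw [this, show ∫ x, Ψ x = ∫ x in {0}ᶜ, Ψ x by rw [restrict_compl_singleton]]
    refine setIntegral_congr_fun (measurableSet_singleton (0 : ℂ)).compl fun x hx => ?_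
    simp [e x hx, ContinuousLinearMap.det, LinearMap.det_restrictScalars, Algebra.norm_complex_eq,
      Complex.normSq_eq_norm_sq]
  · ext s
    refine ⟨?_, fun h => ⟨(s + c)⁻¹, inv_ne_zero fun k => h (eq_neg_of_add_eq_zero_left k), by simp⟩⟩
    rintro ⟨x, hx, rfl⟩
    simpa [sub_eq_add_neg] using hx

lemma d1comp {B m : ℂ → ℂ} {x m' : ℂ} (hm : HasDerivAt m m' x) (hB : DifferentiableAt ℝ B (m x)) :
    d1 (fun x => B (m x)) x = conj m' * d1 B (m x) := by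
  have := (hB.hasFDerivAt.comp x (hm.hasFDerivAt.restrictScalars ℝ)).fderiv
  simp only [Function.comp_def] at this
  have c := cr (fderiv ℝ B (m x)) m'
  simp [d1, this, mul_comm I]
  simp only [mul_comm _ I] at c ⊢
  linear_combination (1 / 2) * c

lemma d1mul {f k : ℂ → ℂ} {x : ℂ} (hf : DifferentiableAt ℝ f x) (hk : DifferentiableAt ℂ k x) :
    d1 (fun x => f x * k x) x = d1 f x * k x := by
  have := d1comp (B := id) hk.hasDerivAt differentiableAt_id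
  simp only [d1, fderiv_fun_mul hf (hk.restrictScalars ℝ)] at this ⊢
  simp at this ⊢
  linear_combination f x / 2 * this

lemma σre {x : ℂ} (hx : x ≠ 0) : 0 < (x⁻¹ - 1 / 2).re ↔ ‖1 - x‖ ^ 2 < 1 := by
  have := normSq_pos.2 hx
  rw [Complex.sq_norm, sub_re, inv_re, sub_pos, show (1 / 2 : ℂ).re = 1 / 2 by norm_num, lt_div_iff₀ this,
    normSq_apply, normSq_apply]
  simp only [sub_re, one_re, sub_im, one_im]
  constructor <;> intro <;> linarith

def Bl : Set (ℂ × ℂ) := {q | ‖q.1‖ ^ 2 + ‖q.2‖ ^ 2 < 1}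

noncomputable def Fw (H : ℂ → ℂ) (q : ℂ × ℂ) : ℂ × ℂ := (1 - q.1, H ((1 - q.1)⁻¹ - 1 / 2) + q.2 * (1 - q.1) ^ 3)

noncomputable def Bw (H : ℂ → ℂ) (p : ℂ × ℂ) : ℂ × ℂ := (1 - p.1, (p.2 - H (p.1⁻¹ - 1 / 2)) / p.1 ^ 3)

lemma ne0 {x : ℂ} (h : ‖1 - x‖ ^ 2 < 1) : x ≠ 0 := by rintro rfl; simp at h

lemma mem1 {q : ℂ × ℂ} (h : q ∈ Bl) : ‖q.1‖ ^ 2 < 1 ∧ ‖q.2‖ ≤ 1 := by
  have : ‖q.1‖ ^ 2 + ‖q.2‖ ^ 2 < 1 := h
  constructor <;> nlinarith [norm_nonneg q.1, norm_nonneg q.2]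

lemma an {H : ℂ → ℂ} (hH : AnalyticOnNhd ℂ H {s | 0 < s.re}) {x : ℂ} (h : ‖1 - x‖ ^ 2 < 1) :
    AnalyticAt ℂ (fun x => H (x⁻¹ - 1 / 2)) x :=
  AnalyticAt.comp (g := H) (hH _ ((σre (ne0 h)).2 h)) ((analyticAt_id.inv (ne0 h)).sub analyticAt_const)

lemma dom {H : ℂ → ℂ} (hH : AnalyticOnNhd ℂ H {s | 0 < s.re}) {M : ℝ} (hM : ∀ s, 0 < s.re → ‖H s‖ ≤ M) :
    IsOpen (Bw H ⁻¹' Bl) ∧ Bornology.IsBounded (Bw H ⁻¹' Bl) ∧ BijOn (Fw H) Bl (Bw H ⁻¹' Bl) ∧
      InvOn (Bw H) (Fw H) Bl (Bw H ⁻¹' Bl) ∧ DifferentiableOn ℂ (Fw H) Bl ∧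
      DifferentiableOn ℂ (Bw H) (Bw H ⁻¹' Bl) := by
  have d (p : ℂ × ℂ) (hp : p ∈ Bw H ⁻¹' Bl) : DifferentiableAt ℂ (Bw H) p := by
    have := (an hH (mem1 hp).1).differentiableAt.comp p differentiableAt_fst
    exact DifferentiableAt.prodMk (by fun_prop) ((differentiableAt_snd.sub this).mul
      ((differentiableAt_fst.pow 3).inv (pow_ne_zero _ (ne0 (mem1 hp).1))))
  have a (q : ℂ × ℂ) (hq : q ∈ Bl) : ‖1 - (1 - q.1)‖ ^ 2 < 1 := by simpa using (mem1 hq).1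
  have i1 : LeftInvOn (Bw H) (Fw H) Bl := fun q hq => by simp [Bw, Fw, ne0 (a q hq)]
  have i2 : RightInvOn (Bw H) (Fw H) (Bw H ⁻¹' Bl) := fun p hp => by simp [Bw, Fw, ne0 (mem1 hp).1]
  refine ⟨isOpen_iff_mem_nhds.2 fun p hp => (d p hp).continuousAt.preimage_mem_nhds
    ((isOpen_lt (by fun_prop) continuous_const).mem_nhds hp), isBounded_iff_forall_norm_le.2 ⟨max 2 (M + 8), fun p hp => ?_⟩,
    InvOn.bijOn ⟨i1, i2⟩ (fun q hq => by rwa [mem_preimage, i1 hq]) fun _ h => h, ⟨i1, i2⟩, fun q hq => ?_,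
    fun p hp => (d p hp).differentiableWithinAt⟩
  · obtain ⟨h1, h2⟩ := mem1 hp
    have n : ‖p.1‖ ≤ 2 := by
      have := norm_sub_le 1 (1 - p.1)
      simp only [sub_sub_cancel, norm_one] at this
      have : ‖1 - p.1‖ ^ 2 < 1 := h1
      nlinarith [norm_nonneg (1 - p.1)]
    refine max_le_max n ?_
    rw [Bw, norm_div, div_le_one (norm_pos_iff.2 (pow_ne_zero _ (ne0 h1))), norm_pow] at h2
    have := norm_sub_norm_le p.2 (H (p.1⁻¹ - 1 / 2))
    have := hM _ ((σre (ne0 h1)).2 h1)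
    have := pow_le_pow_left₀ (norm_nonneg _) n 3
    linarith
  · have := DifferentiableAt.comp (g := fun x => H (x⁻¹ - 1 / 2)) (f := fun q : ℂ × ℂ => 1 - q.1) q
      (an hH (a q hq)).differentiableAt (by fun_prop)
    exact (DifferentiableAt.prodMk (by fun_prop) (this.add (by fun_prop))).differentiableWithinAt

lemma stepB {H : ℂ → ℂ} (hH : AnalyticOnNhd ℂ H {s | 0 < s.re}) (per : Function.Periodic H (2 * π * I))
    (mo : MeasurableSet (Bw H ⁻¹' Bl)) {C : ℝ≥0} (E : Est (Bw H ⁻¹' Bl) C) {B G : ℂ → ℂ} (cB : ContDiff ℝ ∞ B)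
    (cG : ContDiff ℝ ∞ G) {S : Set ℂ} (cS : IsCompact S) (sS : ∀ s ∈ S, 0 < s.re) (B0 : ∀ s ∉ S, B s = 0)
    (G0 : ∀ s ∉ S, G s = 0) (B1 : ∀ s, ‖B s‖ ≤ 1) :
    ‖∫ s, conj (deriv H s) * B s * G s‖ ≤ 2 * C * (∫ s, ‖d1 G s‖) + 4 * ∫ s, ‖G s‖ := by
  obtain ⟨R, hR⟩ := cS.isBounded.exists_norm_le
  obtain ⟨L, hL⟩ := cS.exists_bound_of_continuousOn (d1c cB).continuous.continuousOn
  obtain ⟨k, hk⟩ := exists_nat_ge (R + L)
  set c : ℂ := 1 / 2 + k * (2 * π * I) with hc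
  have cre (s : ℂ) : (s + c).re = s.re + 1 / 2 := by simp [hc]
  have c0 (s : ℂ) (hs : s ∈ S) : s + c ≠ 0 := fun e => by
    have := cre s; rw [e] at this; simp at this; linarith [sS s hs]
  have eh : (fun x : ℂ => H (x⁻¹ - 1 / 2)) = fun x => H (x⁻¹ - c) := funext fun x => by
    rw [hc, ← sub_sub, per.sub_nat_mul_eq]
  set T := (fun s => (s + c)⁻¹) '' S
  have cT : IsCompact T := cS.image_of_continuousOn (ContinuousOn.inv₀ (by fun_prop) c0)
  have nT (x : ℂ) (hx : x ∉ T) : x⁻¹ - c ∉ S := fun h => hx ⟨_, h, by simp⟩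
  have mT (x : ℂ) (hx : x ∈ T) : x ≠ 0 ∧ 0 < (x⁻¹ - c).re ∧ ‖1 - x‖ ^ 2 < 1 := by
    obtain ⟨s, hs, rfl⟩ := hx
    have := inv_ne_zero (c0 s hs)
    refine ⟨this, by simpa using sS s hs, (σre this).1 ?_⟩
    rw [inv_inv, sub_re, cre]; simpa using sS s hs
  have cm (x : ℂ) (hx : x ≠ 0) : ContDiffAt ℝ ∞ (fun x : ℂ => x⁻¹ - c) x :=
    (contDiffAt_id.inv hx).sub contDiffAt_const
  have g0 (x : ℂ) (hx : x ∉ T) : G (x⁻¹ - c) * -(x ^ 2)⁻¹ = 0 := by rw [G0 _ (nT x hx), zero_mul]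
  obtain ⟨a, a0, ha⟩ := cT.exists_forall_le' (f := fun x => (1 - ‖1 - x‖ ^ 2) * (‖x‖ ^ 3) ^ 2) (by fun_prop)
    fun x hx => mul_pos (sub_pos.2 (mT x hx).2.2) (by have := (mT x hx).1; positivity)
  have := stepA mo E (h := fun x => H (x⁻¹ - 1 / 2)) (b := fun x => B (x⁻¹ - c))
    (g := fun x => G (x⁻¹ - c) * -(x ^ 2)⁻¹) (fun p hp => an hH (mem1 hp).1)
    (loc cT.isClosed (fun x hx => B0 _ (nT x hx)) fun x hx => cB.contDiffAt.comp x (cm x (mT x hx).1))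
    (loc cT.isClosed g0 fun x hx => (cG.contDiffAt.comp x (cm x (mT x hx).1)).mul
      ((contDiffAt_id.pow 2).inv (pow_ne_zero _ (mT x hx).1)).neg) (.intro cT g0) (half_pos (Real.sqrt_pos.2 a0))
    (fun x hx w hw => ?_) (fun _ => B1 _) fun p hp => ?_
  · rw [cov c (fun s => conj (deriv H s) * B s * G s) fun x hx => ?_,
      cov c (fun s => ‖d1 G s‖) fun x hx => ?_, cov c (fun s => ‖G s‖ * (‖s + c‖ ^ 2)⁻¹)
      (Ψ := fun x => ‖G (x⁻¹ - c) * -(x ^ 2)⁻¹‖) fun x hx => ?_] at this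
    · refine this.trans (add_le_add_right ?_ _)
      rw [← integral_const_mul]
      refine integral_mono_of_nonneg (.of_forall fun _ => by positivity)
        ((cG.continuous.integrable_of_hasCompactSupport (.intro cS G0)).norm.const_mul _) (.of_forall fun s => ?_)
      by_cases hs : s ∈ S
      · have := re_le_norm (s + c)
        rw [cre] at this
        have := sS s hs
        show _ * _ ≤ _ * _
        rw [mul_comm]
        gcongr
        rw [inv_le_comm₀ (by have := c0 s hs; positivity) four_pos]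
        nlinarith
      · simp [G0 s hs]
    · simp only [sub_add_cancel, norm_mul, norm_neg, norm_inv, norm_pow, smul_eq_mul]
      have := norm_ne_zero_iff.2 hx
      field_simp
    · rw [d1mul (f := fun x => G (x⁻¹ - c)) (k := fun x => -(x ^ 2)⁻¹)
        ((cG.contDiffAt.comp x (cm x hx)).differentiableAt (by simp)) (by fun_prop (disch := simpa)), d1comp (hm c hx) (cG.differentiable (by simp) _)]
      simp only [norm_mul, norm_conj, norm_neg, smul_eq_mul]; ring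
    · by_cases hT : x ∈ T
      · rw [eh, show deriv (fun x => H (x⁻¹ - c)) x = _ from
          (HasDerivAt.comp x (hH _ (mT x hT).2.1).differentiableAt.hasDerivAt (hm c hx)).deriv,
          real_smul, ofReal_pow, ← conj_mul']
        simp only [map_mul, map_neg]; ring
      · simp [G0 _ (nT x hT)]
  · have hx := closure_minimal (Function.support_subset_iff'.2 g0) cT.isClosed hx
    have x0 : 0 < (‖x‖ ^ 3) ^ 2 := by have := (mT x hx).1; positivity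
    have := ha x hx
    have := pow_le_pow_left₀ (norm_nonneg _) hw 2
    rw [div_pow, Real.sq_sqrt a0.le] at this
    show ‖1 - x‖ ^ 2 + ‖(_ + w - _) / x ^ 3‖ ^ 2 < 1
    rw [add_sub_cancel_left, norm_div, div_pow, norm_pow, ← lt_sub_iff_add_lt', div_lt_iff₀ x0]
    linarith
  · obtain ⟨h1, h2⟩ := mem1 hp
    have x0 := ne0 h1
    have n := norm_pos_iff.2 x0
    rw [Bw, norm_div, div_le_one (norm_pos_iff.2 (pow_ne_zero _ x0)), norm_pow] at h2
    rw [d1comp (hm c x0) (cB.differentiable (by simp) _), norm_mul, norm_conj, norm_neg, norm_inv, norm_pow]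
    by_cases hs : p.1⁻¹ - c ∈ S
    · have i := norm_sub_le p.1⁻¹ (p.1⁻¹ - c)
      rw [sub_sub_cancel] at i
      have := abs_im_le_norm c
      have j : |c.im| = k * (2 * π) := by simp [hc, abs_of_pos Real.pi_pos]
      have := hR _ hs
      have l : L ≤ ‖p.1‖⁻¹ := by rw [← norm_inv]; nlinarith [Real.pi_gt_three, k.cast_nonneg (α := ℝ)]
      calc _ ≤ ‖p.1‖ ^ 3 * ((‖p.1‖ ^ 2)⁻¹ * ‖p.1‖⁻¹) := by gcongr; exact (hL _ hs).trans l
        _ = 1 := by field_simp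
    · simp [d1, fderiv_of_notMem_tsupport ℝ fun h => hs
        (closure_minimal (Function.support_subset_iff'.2 B0) cS.isClosed h)]

end Pool.Agent.H.MP_ae2532_an
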