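import Mathlib

set_option autoImplicit false
open Set Filter Topology Metric Complex MeasureTheory
open scoped Real

namespace Pool.Agent.H.MP_ae2532_an

noncomputable def a (j : ℕ) : ℝ := 1 / (j + 2)

noncomputable def PR : ℕ → ℂ → ℂ × ℂ
  | 0, _ => (0, 1)
  | j + 1, s => (1 * (PR j s).1 + a j * (cexp (-(2 ^ j : ℤ) * s) * (PR j s).2),
      -a j * (PR j s).1 + 1 * (cexp (-(2 ^ j : ℤ) * s) * (PR j s).2))

lemma PRd (j : ℕ) : Differentiable ℂ (PR j) := by
  induction j with
  | zero => exact differentiable_const _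
  | succ j ih => show Differentiable ℂ fun s => PR (j + 1) s; simp only [PR]; fun_prop

lemma PRp (j : ℕ) (s : ℂ) : PR j (s + 2 * π * I) = PR j s := by
  induction j with
  | zero => rfl
  | succ j ih =>
    simp only [PR, ih, mul_add, Complex.exp_add]
    rw [← Int.cast_neg, exp_int_mul_two_pi_mul_I, mul_one (cexp _)]

lemma nE (j : ℕ) {s : ℂ} (h : 0 ≤ s.re) : ‖cexp (-(2 ^ j : ℤ) * s)‖ ≤ Real.exp (-s.re) ^ j := by
  rw [norm_exp, ← Real.exp_nat_mul, Real.exp_le_exp, ← Int.cast_neg, ← ofReal_intCast, re_ofReal_mul]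
  have : (j : ℝ) ≤ 2 ^ j := by exact_mod_cast Nat.lt_two_pow_self.le
  push_cast; nlinarith

lemma PRb (j : ℕ) {s : ℂ} (h : 0 ≤ s.re) : ‖(PR j s).1‖ ^ 2 + ‖(PR j s).2‖ ^ 2 ≤ 2 * (j + 1) / (j + 2) := by
  induction j with
  | zero => simp [PR]
  | succ j ih =>
    have e (P A : ℂ) (c : ℝ) : ‖1 * P + c * A‖ ^ 2 + ‖-c * P + 1 * A‖ ^ 2 = (1 + c ^ 2) * (‖P‖ ^ 2 + ‖A‖ ^ 2) := by
      simp [Complex.sq_norm, normSq_apply]; ring
    have n := (nE j h).trans (pow_le_one₀ (Real.exp_pos _).le (Real.exp_le_one_iff.2 (neg_nonpos.2 h)))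
    simp only [PR]
    rw [e, norm_mul]
    calc _ ≤ (1 + a j ^ 2) * (‖(PR j s).1‖ ^ 2 + (1 * ‖(PR j s).2‖) ^ 2) := by gcongr
      _ ≤ (1 + a j ^ 2) * (2 * (j + 1) / (j + 2)) := by rw [one_mul]; gcongr
      _ ≤ _ := by
        rw [a, ← sub_nonneg, show 2 * (((j + 1 : ℕ) : ℝ) + 1) / ((j + 1 : ℕ) + 2) - (1 + (1 / (j + 2)) ^ 2) *
          (2 * (j + 1) / (j + 2)) = 2 / ((j + 2) ^ 3 * (j + 3)) by push_cast; field_simp; ring]
        positivity

lemma PRb' (j : ℕ) {s : ℂ} (h : 0 ≤ s.re) : ‖(PR j s).1‖ ≤ 2 ∧ ‖(PR j s).2‖ ≤ 2 := by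
  have := (PRb j h).trans (show (2 * (j + 1) / (j + 2) : ℝ) ≤ 2 by rw [div_le_iff₀ (by positivity)]; linarith)
  constructor <;> nlinarith [norm_nonneg (PR j s).1, norm_nonneg (PR j s).2]

noncomputable def cf (x : ℝ) (f : ℂ → ℂ) (n : ℤ) : ℂ := ∫ y in (0 : ℝ)..2 * π, f (x + y * I) * cexp (n * (x + y * I))

lemma cf_lin (x : ℝ) {f g : ℂ → ℂ} (hf : Continuous f) (hg : Continuous g) (α β : ℂ) (d n : ℤ) :
    cf x (fun s => α * f s + β * (cexp (-d * s) * g s)) n = α * cf x f n + β * cf x g (n - d) := by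
  simp only [cf]
  rw [← intervalIntegral.integral_const_mul, ← intervalIntegral.integral_const_mul, ← intervalIntegral.integral_add
    (Continuous.intervalIntegrable (by fun_prop) _ _) (Continuous.intervalIntegrable (by fun_prop) _ _)]
  congr 1; ext y
  rw [Int.cast_sub, sub_mul, sub_eq_add_neg, Complex.exp_add, neg_mul]; ring

lemma cf_one (x : ℝ) {n : ℤ} (h : n ≠ 0) : cf x (fun _ => 1) n = 0 := by
  simp only [cf, one_mul, mul_add, Complex.exp_add, intervalIntegral.integral_const_mul, ← mul_assoc,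
    mul_right_comm _ _ I]
  rw [integral_exp_mul_complex (by simp [h])]
  simp [show (n : ℂ) * I * (2 * π) = n * (2 * π * I) by ring]

lemma cfPR (x : ℝ) (j : ℕ) : (∀ n : ℤ, n < 0 ∨ 2 ^ j ≤ n → cf x (fun s => (PR j s).1) n = 0 ∧
    cf x (fun s => (PR j s).2) n = 0) ∧ cf x (fun s => (PR j s).2) (2 ^ j - 1) = 2 * π := by
  induction j with
  | zero => exact ⟨fun n hn => ⟨by simp [cf, PR], cf_one x (by omega)⟩, by simp [cf, PR]⟩
  | succ j ih =>
    have c := (PRd j).continuous
    have p : (0 : ℤ) < 2 ^ j := by positivity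
    simp only [PR, cf_lin x c.fst c.snd]
    refine ⟨fun n hn => ?_, ?_⟩
    · rw [(ih.1 n (by omega)).1, (ih.1 (n - 2 ^ j) (by omega)).2]; simp
    · rw [(ih.1 _ (by omega)).1, show (2 : ℤ) ^ (j + 1) - 1 - 2 ^ j = 2 ^ j - 1 by ring, ih.2]; simp

lemma cfP (x : ℝ) (j l : ℕ) (h : j + 1 ≤ l) : cf x (fun s => (PR l s).1) (2 ^ (j + 1) - 1) = a j * (2 * π) := by
  induction l, h using Nat.le_induction with
  | base =>
    have c := (PRd j).continuous
    have p : (0 : ℤ) < 2 ^ j := by positivity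
    simp only [PR, cf_lin x c.fst c.snd]
    rw [((cfPR x j).1 _ (by omega)).1, show (2 : ℤ) ^ (j + 1) - 1 - 2 ^ j = 2 ^ j - 1 by ring, (cfPR x j).2]; simp
  | succ l h ih =>
    have c := (PRd l).continuous
    have p : (2 : ℤ) ^ (j + 1) ≤ 2 ^ l := pow_le_pow_right₀ one_le_two h
    simp only [PR, cf_lin x c.fst c.snd]
    rw [ih, ((cfPR x l).1 _ (by omega)).2]; simp

noncomputable def tm (j : ℕ) (s : ℂ) : ℂ := a j * (cexp (-(2 ^ j : ℤ) * s) * (PR j s).2)

noncomputable def RS (s : ℂ) : ℂ := ∑' j, tm j s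

lemma tmb (j : ℕ) {s : ℂ} {δ : ℝ} (d : 0 < δ) (h : δ < s.re) : ‖tm j s‖ ≤ Real.exp (-δ) ^ j * 2 := by
  have a1 : ‖(a j : ℂ)‖ ≤ 1 := by
    rw [norm_real, a, Real.norm_of_nonneg (by positivity), div_le_one (by positivity)]
    linarith [j.cast_nonneg (α := ℝ)]
  rw [tm, norm_mul, norm_mul, ← one_mul (_ ^ j * 2)]
  gcongr
  · exact (nE j (d.trans h).le).trans (by gcongr)
  · exact (PRb' j (d.trans h).le).2

lemma sg {δ : ℝ} (d : 0 < δ) : Summable fun j : ℕ => Real.exp (-δ) ^ j * 2 :=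
  (summable_geometric_of_lt_one (Real.exp_pos _).le (Real.exp_lt_one_iff.2 (neg_lt_zero.2 d))).mul_right 2

lemma Ha : AnalyticOnNhd ℂ RS {s | 0 < s.re} := fun s hs => by
  have o := isOpen_lt (continuous_const (y := s.re / 2)) continuous_re
  refine (differentiableOn_tsum_of_summable_norm (sg (half_pos hs)) (fun j => ?_) o
    fun j w hw => tmb j (half_pos hs) hw).analyticAt (o.mem_nhds (half_lt_self (show 0 < s.re from hs)))
  have := PRd j
  unfold tm; fun_prop

lemma Hp : Function.Periodic RS (2 * π * I) := fun s => tsum_congr fun j => by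
  simp only [tm, PRp, mul_add, Complex.exp_add]
  rw [← Int.cast_neg, exp_int_mul_two_pi_mul_I, mul_one]

lemma Ht {s : ℂ} (h : 0 < s.re) : Tendsto (fun N => (PR N s).1) atTop (𝓝 (RS s)) := by
  have e (N : ℕ) : (PR N s).1 = ∑ j ∈ Finset.range N, tm j s := by
    induction N with
    | zero => rfl
    | succ N ih => rw [Finset.sum_range_succ, ← ih, PR, one_mul]; rfl
  simp only [e]
  exact ((sg (half_pos h)).of_norm_bounded fun j => tmb j (half_pos h) (half_lt_self h)).hasSum.tendsto_sum_nat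

lemma Hb (s : ℂ) (h : 0 < s.re) : ‖RS s‖ ≤ 2 := le_of_tendsto' (Ht h).norm fun N => (PRb' N h.le).1

lemma cfH {x : ℝ} (h : 0 < x) (j : ℕ) : cf x RS (2 ^ (j + 1) - 1) = a j * (2 * π) := by
  refine tendsto_nhds_unique (l := atTop) (f := fun N => cf x (fun s => (PR N s).1) (2 ^ (j + 1) - 1))
    (intervalIntegral.tendsto_integral_filter_of_dominated_convergence
      (fun y => 2 * ‖cexp ((2 ^ (j + 1) - 1 : ℤ) * (x + y * I))‖) (.of_forall fun N => ?_)
      (.of_forall fun N => .of_forall fun y _ => ?_) (Continuous.intervalIntegrable (by fun_prop) _ _)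
      (.of_forall fun y _ => (Ht (by simpa)).mul_const _))
    (tendsto_const_nhds.congr' ((eventually_ge_atTop (j + 1)).mono fun l hl => (cfP x j l hl).symm))
  · have := (PRd N).continuous
    exact Continuous.aestronglyMeasurable (by fun_prop)
  · rw [norm_mul]; gcongr; exact (PRb' N (by simpa using h.le)).1

lemma Hc {x : ℝ} (h : 0 < x) : Continuous fun y : ℝ => deriv RS (x + y * I) :=
  Ha.deriv.continuousOn.comp_continuous (by fun_prop) fun y => by simpa

lemma cfD {x : ℝ} (h : 0 < x) (n : ℤ) : cf x (deriv RS) n = -n * cf x RS n := by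
  have c : Continuous fun y : ℝ => RS (x + y * I) := Ha.continuousOn.comp_continuous (by fun_prop) fun y => by simpa
  have c' := Hc h
  have := intervalIntegral.integral_eq_sub_of_hasDerivAt (a := 0) (b := 2 * π)
    (f := fun y : ℝ => RS (x + y * I) * cexp (n * (x + y * I)))
    (f' := fun y : ℝ => I * (deriv RS (x + y * I) * cexp (n * (x + y * I)) + n * (RS (x + y * I) * cexp (n * (x + y * I)))))
    (fun y _ => ?_) (Continuous.intervalIntegrable (by fun_prop) _ _)
  · rw [intervalIntegral.integral_const_mul, intervalIntegral.integral_add (Continuous.intervalIntegrable (by fun_prop) _ _)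
      (Continuous.intervalIntegrable (by fun_prop) _ _), intervalIntegral.integral_const_mul] at this
    simp only [ofReal_mul, ofReal_ofNat, Hp x, mul_add, Complex.exp_add, exp_int_mul_two_pi_mul_I] at this
    simp only [cf, mul_add, Complex.exp_add]
    simp only [ofReal_zero, zero_mul, mul_zero, add_zero, Complex.exp_zero, sub_self] at this
    rw [← mul_add, mul_eq_zero, or_iff_right I_ne_zero] at this
    linear_combination this
  · have l : HasDerivAt (fun w : ℂ => x + w * I) I y := by simpa using ((hasDerivAt_id (y : ℂ)).mul_const I).const_add (x : ℂ)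
    have := ((HasDerivAt.comp (y : ℂ) (Ha (x + y * I) (by simpa)).differentiableAt.hasDerivAt l).mul
      (l.const_mul (n : ℂ)).cexp).comp_ofReal
    refine this.congr_deriv ?_
    simp only [Function.comp]; ring

lemma low (j : ℕ) {x : ℝ} (h : 0 < x) (h2 : x ≤ (1 / 2) ^ j) :
    2 ^ j * a j * Real.exp (-2) ≤ ∫ y in (0 : ℝ)..2 * π, ‖deriv RS (x + y * I)‖ := by
  have c := Hc h
  have p : (1 : ℝ) ≤ 2 ^ j := one_le_pow₀ one_le_two
  have a0 : 0 < a j := by unfold a; positivity
  have := intervalIntegral.norm_integral_le_of_norm_le (μ := volume) Real.two_pi_pos.le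
    (f := fun y => deriv RS (x + y * I) * cexp ((2 ^ (j + 1) - 1 : ℤ) * (x + y * I)))
    (g := fun y => ‖deriv RS (x + y * I)‖ * Real.exp 2) (.of_forall fun y _ => ?_)
    (Continuous.intervalIntegrable (by fun_prop) _ _)
  · rw [intervalIntegral.integral_mul_const, ← cf, cfD h, cfH h, norm_mul, norm_neg, norm_intCast, norm_mul,
      norm_real, Real.norm_of_nonneg a0.le, show ‖(2 * π : ℂ)‖ = 2 * π by simp [Real.pi_pos.le]] at this
    rw [Real.exp_neg, mul_inv_le_iff₀ (Real.exp_pos _)]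
    refine le_trans ?_ this
    push_cast
    rw [abs_of_nonneg (by rw [pow_succ]; linarith), pow_succ]
    gcongr
    · linarith
    · linarith
    · nlinarith [Real.pi_gt_three]
  · rw [norm_mul, norm_exp, ← ofReal_intCast, re_ofReal_mul]
    gcongr
    rw [one_div, inv_pow, le_inv_comm₀ h (by positivity), le_inv_comm₀ (by positivity) h, ← one_div,
      le_div_iff₀ (by positivity)] at h2
    simp [pow_succ]; nlinarith

end Pool.Agent.H.MP_ae2532_an
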