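import Pool.Agent.H.MP_ae2532_an.C
import Pool.Agent.H.MP_ae2532_an.D

set_option autoImplicit false
open Set Filter Topology Metric Complex MeasureTheory ComplexConjugate
open Real (smoothTransition)
open Real.smoothTransition
open scoped ContDiff NNReal Real

namespace Pool.Agent.H.MP_ae2532_an

noncomputable def γ (y : ℝ) : ℝ := smoothTransition (y + 1) - smoothTransition (y - 7)

noncomputable def α (l x : ℝ) : ℝ := smoothTransition (l * x - 1) - smoothTransition (x - 1)

lemma γc : ContDiff ℝ ∞ γ := by unfold γ; fun_prop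

lemma αc (l : ℝ) : ContDiff ℝ ∞ (α l) := by unfold α; fun_prop

lemma ab (x y : ℝ) : |smoothTransition x - smoothTransition y| ≤ 1 :=
  abs_le.2 ⟨by linarith [nonneg x, le_one y], by linarith [nonneg y, le_one x]⟩

lemma γ0 {y : ℝ} (h : y ∉ Icc (-1) 8) : γ y = 0 := by
  rcases not_and_or.1 h with h | h
  · rw [γ, zero_of_nonpos, zero_of_nonpos, sub_self] <;> linarith
  · rw [γ, one_of_one_le, one_of_one_le, sub_self] <;> linarith

lemma γ1 {y : ℝ} (h : y ∈ Icc 0 7) : γ y = 1 := by
  rw [γ, one_of_one_le, zero_of_nonpos, sub_zero] <;> linarith [h.1, h.2]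

lemma α0 {l x : ℝ} (hl : 1 ≤ l) (h : x ∉ Icc l⁻¹ 2) : α l x = 0 := by
  rcases not_and_or.1 h with h | h
  · have := inv_le_one_of_one_le₀ hl
    rw [← one_div, div_le_iff₀ (by linarith)] at h
    rw [α, zero_of_nonpos, zero_of_nonpos, sub_self] <;> nlinarith
  · rw [α, one_of_one_le, one_of_one_le, sub_self] <;> nlinarith

lemma σi : Integrable fun x => |deriv smoothTransition x| :=
  ((Real.smoothTransition.contDiff (n := 1)).continuous_deriv le_rfl |>.integrable_of_hasCompactSupport
    (.intro (isCompact_Icc (a := 0) (b := 1)) fun x hx => by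
      rcases not_and_or.1 hx with h | h
      · exact (EventuallyEq.deriv_eq (f := fun _ => 0) ((eventually_lt_nhds (not_le.1 h)).mono fun y hy =>
          zero_of_nonpos hy.le)).trans (deriv_const _ _)
      · exact (EventuallyEq.deriv_eq (f := fun _ => 1) ((eventually_gt_nhds (not_le.1 h)).mono fun y hy =>
          one_of_one_le hy.le)).trans (deriv_const _ _))).abs

noncomputable def G (l : ℝ) (s : ℂ) : ℂ := (α l s.re * γ s.im : ℝ)

lemma Gc (l : ℝ) : ContDiff ℝ ∞ (G l) :=
  ofRealCLM.contDiff.comp (((αc l).comp reCLM.contDiff).mul (γc.comp imCLM.contDiff))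

lemma Gb : ∃ K : ℝ, ∀ l, 1 ≤ l → ∫ s, ‖d1 (G l) s‖ ≤ K ∧ ∫ s, ‖G l s‖ ≤ K := by
  have k : HasCompactSupport γ := .intro isCompact_Icc fun _ => γ0
  have i1 := (γc.continuous.integrable_of_hasCompactSupport (μ := volume) k).abs
  have i2 := ((γc.continuous_deriv (by simp)).integrable_of_hasCompactSupport (μ := volume) k.deriv).abs
  refine ⟨((∫ x, |deriv smoothTransition x|) + (∫ x, |deriv smoothTransition x|) + ∫ x, |γ x|) *
    ∫ y, |γ y| + |deriv γ y|, fun l hl => ?_⟩
  have l0 : 0 < l := by linarith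
  have j2 := σi.comp_sub_right 1
  have j1 := (j2.comp_mul_left' l0.ne').const_mul l
  have e := volume_preserving_equiv_real_prod.integral_comp measurableEquivRealProd.measurableEmbedding fun z =>
    (l * |deriv smoothTransition (l * z.1 - 1)| + |deriv smoothTransition (z.1 - 1)| + |γ z.1|) *
      (|γ z.2| + |deriv γ z.2|)
  have i := (volume_preserving_equiv_real_prod.integrable_comp_emb measurableEquivRealProd.measurableEmbedding).2
    (((j1.add j2).add i1).mul_prod (i1.add i2))
  rw [Measure.volume_eq_prod, integral_prod_mul (fun x => l * |deriv smoothTransition (l * x - 1)| +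
    |deriv smoothTransition (x - 1)| + |γ x|) fun y => |γ y| + |deriv γ y|, integral_add (f := fun x => _ + _) (j1.add j2) i1,
    integral_add j1 j2, integral_const_mul, Measure.integral_comp_mul_left fun x => |deriv smoothTransition (x - 1)|,
    integral_sub_right_eq_self fun x => |deriv smoothTransition x|, abs_of_pos (inv_pos.2 l0), smul_eq_mul,
    mul_inv_cancel_left₀ l0.ne'] at e
  have ag (x : ℝ) : |α l x| ≤ |γ x| := by
    by_cases h : x ∈ Icc l⁻¹ 2
    · rw [γ1 ⟨(inv_pos.2 l0).le.trans h.1, by linarith [h.2]⟩, abs_one]; exact ab _ _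
    · rw [α0 hl h, abs_zero]; exact abs_nonneg _
  have ds (x : ℝ) : HasDerivAt smoothTransition (deriv smoothTransition x) x :=
    ((Real.smoothTransition.contDiff (n := 1)).differentiable one_ne_zero x).hasDerivAt
  rw [← e]
  refine ⟨integral_mono_of_nonneg (.of_forall fun _ => norm_nonneg _) i (.of_forall fun s => ?_),
    integral_mono_of_nonneg (.of_forall fun _ => norm_nonneg _) i (.of_forall fun s => ?_)⟩
  · have da : HasDerivAt (α l) (deriv smoothTransition (l * s.re - 1) * l - deriv smoothTransition (s.re - 1)) s.re :=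
      (((ds _).comp s.re (((hasDerivAt_id s.re).const_mul l).sub_const 1)).sub
        ((ds _).comp_sub_const s.re 1)).congr_deriv (by simp)
    have := (ofRealCLM.hasFDerivAt.comp s ((da.hasFDerivAt.comp s reCLM.hasFDerivAt).mul
      ((γc.differentiable (by simp) _).hasDerivAt.hasFDerivAt.comp s imCLM.hasFDerivAt))).fderiv
    have e2 : d1 (G l) s = (((deriv smoothTransition (l * s.re - 1) * l - deriv smoothTransition (s.re - 1)) * γ s.im : ℝ) +
        I * (α l s.re * deriv γ s.im : ℝ)) / 2 := by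
      rw [d1, show fderiv ℝ (G l) s = _ from this]; simp [mul_comm]
    have := abs_sub (deriv smoothTransition (l * s.re - 1) * l) (deriv smoothTransition (s.re - 1))
    rw [abs_mul, abs_of_pos l0] at this
    simp only [measurableEquivRealProd_apply]
    rw [e2, norm_div, Complex.norm_two]
    refine (div_le_self (norm_nonneg _) one_le_two).trans ((norm_add_le _ _).trans ?_)
    rw [norm_mul, norm_I, one_mul, norm_real, norm_real, Real.norm_eq_abs, Real.norm_eq_abs, abs_mul, abs_mul, mul_add]
    have := abs_nonneg (γ s.re)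
    have := ag s.re
    have := abs_nonneg (deriv smoothTransition (s.re - 1))
    have : 0 ≤ l * |deriv smoothTransition (l * s.re - 1)| := by positivity
    gcongr <;> linarith
  · simp only [measurableEquivRealProd_apply, G, norm_real, Real.norm_eq_abs, abs_mul]
    gcongr
    · exact (ag _).trans (le_add_of_nonneg_left (by positivity))
    · exact le_add_of_nonneg_right (abs_nonneg _)

lemma ph (c : ℂ) (g : ℝ) : (conj c * (g * (c / √(1 + ‖c‖ ^ 2))) * g).re = g ^ 2 * (‖c‖ ^ 2 / √(1 + ‖c‖ ^ 2)) := by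
  rw [show conj c * (g * (c / √(1 + ‖c‖ ^ 2))) * g = (g ^ 2 * (‖c‖ ^ 2 / √(1 + ‖c‖ ^ 2)) : ℝ) by
    push_cast; rw [← conj_mul']; ring, ofReal_re]

lemma ph2 (r : ℝ) (h : 0 ≤ r) : r - 1 ≤ r ^ 2 / √(1 + r ^ 2) := by
  have : √(1 + r ^ 2) ≤ r + 1 := Real.sqrt_le_iff.2 ⟨by positivity, by nlinarith⟩
  rw [le_div_iff₀ (by positivity)]
  nlinarith [Real.sqrt_nonneg (1 + r ^ 2)]

lemma noEst (C : ℝ≥0) : ¬ Est (Bw RS ⁻¹' Bl) C := fun E => by
  obtain ⟨K, hK⟩ := Gb
  obtain ⟨N, hN⟩ := ((Real.tendsto_sum_range_one_div_nat_succ_atTop.atTop_mul_const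
    (show 0 < Real.exp (-2) / 4 by positivity)).eventually_gt_atTop (2 * C * K + 4 * K + 7)).exists
  set l : ℝ := 2 ^ (N + 1) with hl
  have l1 : 1 ≤ l := one_le_pow₀ one_le_two
  have cS : IsCompact (Icc l⁻¹ 2 ×ℂ Icc (-1) 8) := isCompact_Icc.reProdIm isCompact_Icc
  have sS (s : ℂ) (h : s ∈ Icc l⁻¹ 2 ×ℂ Icc (-1) 8) : 0 < s.re := (inv_pos.2 (by linarith)).trans_le h.1.1
  have G0 (s : ℂ) (h : s ∉ Icc l⁻¹ 2 ×ℂ Icc (-1) 8) : G l s = 0 := by
    rcases not_and_or.1 h with h | h
    · simp [G, α0 l1 h]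
    · simp [G, γ0 h]
  have cD (s : ℂ) (h : 0 < s.re) : ContDiffAt ℝ ∞ (deriv RS) s := (Ha.deriv s h).contDiffAt.restrict_scalars ℝ
  have cB : ContDiff ℝ ∞ fun s => G l s * (deriv RS s / √(1 + ‖deriv RS s‖ ^ 2)) :=
    loc cS.isClosed (fun s h => by simp [G0 s h]) fun s h => (Gc l).contDiffAt.mul ((cD s (sS s h)).mul
      (ContDiffAt.inv (f := fun s => (√(1 + ‖deriv RS s‖ ^ 2) : ℂ)) (ofRealCLM.contDiff.contDiffAt.comp s
        ((contDiffAt_const.add ((cD s (sS s h)).norm_sq ℂ)).sqrt (by positivity))) (ofReal_ne_zero.2 (by positivity))))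
  have := stepB Ha Hp (dom Ha Hb).1.measurableSet E cB (Gc l) cS sS (fun s h => by simp [G0 s h]) G0 fun s => by
    rw [norm_mul, G, norm_real, norm_mul, norm_div, norm_real, Real.norm_of_nonneg (Real.sqrt_nonneg _)]
    exact mul_le_one₀ (mul_le_one₀ (ab _ _) (norm_nonneg _) (ab _ _)) (by positivity)
      (div_le_one_of_le₀ (Real.le_sqrt_of_sq_le (by linarith)) (by positivity))
  set Ψ := fun s => conj (deriv RS s) * (G l s * (deriv RS s / √(1 + ‖deriv RS s‖ ^ 2))) * G l s
  have cΨ : Continuous Ψ := (loc (n := ∞) cS.isClosed (fun s h => by simp [Ψ, G0 s h]) fun s h =>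
    ((conjCLE.contDiff.contDiffAt.comp s (cD s (sS s h))).mul cB.contDiffAt).mul (Gc l).contDiffAt).continuous
  have kΨ : HasCompactSupport Ψ := .intro cS fun s h => by simp [Ψ, G0 s h]
  have iΨ := cΨ.integrable_of_hasCompactSupport (μ := volume) kΨ
  have p0 (s : ℂ) : 0 ≤ (Ψ s).re := by simp only [Ψ, G, ph]; positivity
  have mp := volume_preserving_equiv_real_prod.symm
  have i := (mp.integrable_comp_emb (MeasurableEquiv.measurableEmbedding _)).2 iΨ.re
  have e := mp.integral_comp (MeasurableEquiv.measurableEmbedding _) fun s => (Ψ s).re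
  rw [Measure.volume_eq_prod] at i e
  replace e := (integral_prod _ i).symm.trans e
  have iF := i.integral_prod_left
  simp only [Function.comp, measurableEquivRealProd_symm_apply, RCLike.re_to_complex, mk_eq_add_mul_I] at iF e
  set F := fun x : ℝ => ∫ y : ℝ, (Ψ (x + y * I)).re
  have lo (j : ℕ) (hj : j < N) (x : ℝ) (hx : x ∈ Icc ((1 / 2 : ℝ) ^ (j + 1)) ((1 / 2) ^ j)) :
      2 ^ j * a j * Real.exp (-2) - 7 ≤ F x := by
    have x0 : 0 < x := lt_of_lt_of_le (by positivity) hx.1
    have a1 : α l x = 1 := by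
      have := hx.2.trans (pow_le_one₀ (by norm_num) (by norm_num))
      have h := (pow_le_pow_of_le_one (by norm_num) (by norm_num) hj).trans hx.1
      rw [one_div, inv_pow, inv_le_iff_one_le_mul₀ (by positivity)] at h
      rw [α, one_of_one_le, zero_of_nonpos, sub_zero]
      · linarith
      · rw [hl, pow_succ]; linarith
    have c := Hc x0
    have pi := Real.pi_lt_d2
    have cy : Continuous fun y : ℝ => (Ψ (x + y * I)).re := by fun_prop
    calc _ ≤ ∫ y in (0 : ℝ)..2 * π, ‖deriv RS (x + y * I)‖ - 1 := by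
          rw [intervalIntegral.integral_sub (c.norm.intervalIntegrable _ _) intervalIntegrable_const,
            intervalIntegral.integral_const, smul_eq_mul]
          linarith [low j x0 hx.2]
      _ ≤ ∫ y in (0 : ℝ)..2 * π, (Ψ (x + y * I)).re :=
          intervalIntegral.integral_mono_on Real.two_pi_pos.le (Continuous.intervalIntegrable (by fun_prop) _ _)
            (cy.intervalIntegrable _ _) fun y hy => by
              simp only [Ψ, G, ph]
              simpa [a1, γ1 ⟨hy.1, show y ≤ 7 by linarith [hy.2]⟩] using ph2 _ (norm_nonneg _)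
      _ ≤ _ := by
          rw [intervalIntegral.integral_of_le Real.two_pi_pos.le]
          refine setIntegral_le_integral (cy.integrable_of_hasCompactSupport
            (.intro (isCompact_Icc (a := -1) (b := 8)) fun y hy => ?_)) (.of_forall fun y => p0 _)
          simp [Ψ, G0 (x + y * I) fun h => hy (by simpa using h.2)]
  have sm (M : ℕ) (hM : M ≤ N) : (∑ j ∈ Finset.range M, (1 / (j + 1) : ℝ)) * (Real.exp (-2) / 4) -
      7 * (1 - (1 / 2) ^ M) ≤ ∫ x in (1 / 2 : ℝ) ^ M..1, F x := by
    induction M with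
    | zero => simp
    | succ M ih =>
      have := intervalIntegral.integral_mono_on (pow_le_pow_of_le_one (by norm_num) (by norm_num) M.le_succ)
        intervalIntegrable_const iF.intervalIntegrable (lo M hM)
      rw [← intervalIntegral.integral_add_adjacent_intervals (b := (1 / 2) ^ M) iF.intervalIntegrable
        iF.intervalIntegrable, Finset.sum_range_succ]
      rw [intervalIntegral.integral_const, smul_eq_mul, pow_succ] at this
      have h2 : (1 / 2 : ℝ) ^ M * 2 ^ M = 1 := by rw [← mul_pow]; simp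
      have h3 : (1 / (M + 1) : ℝ) ≤ 2 * a M := by
        rw [a, mul_one_div, div_le_div_iff₀ (by positivity) (by positivity)]; linarith [M.cast_nonneg (α := ℝ)]
      have := ih (Nat.le_of_succ_le hM)
      rw [pow_succ]
      have h4 := mul_le_mul_of_nonneg_right h3 (Real.exp_pos (-2)).le
      have : (1 / 2 : ℝ) ^ M * (2 ^ M * a M * Real.exp (-2)) = a M * Real.exp (-2) := by
        rw [mul_assoc, ← mul_assoc, h2, one_mul]
      linarith
  have s1 := sm N le_rfl
  rw [intervalIntegral.integral_of_le (pow_le_one₀ (by norm_num) (by norm_num))] at s1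
  have s2 := setIntegral_le_integral (s := Ioc ((1 / 2) ^ N) 1) iF (.of_forall fun x => integral_nonneg fun y => p0 _)
  have s3 := re_le_norm (∫ s, Ψ s)
  have s4 := integral_re iΨ
  simp only [RCLike.re_to_complex] at s4
  have := mul_le_mul_of_nonneg_left (hK l l1).1 (show (0 : ℝ) ≤ 2 * C by positivity)
  have := (hK l l1).2
  have : (0 : ℝ) < (1 / 2) ^ N := by positivity
  linarith

end Pool.Agent.H.MP_ae2532_an
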